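import Mathlib

/-!
# A Lipschitz homeomorphism of a nonseparable Hilbert space that is nowhere Gateaux differentiable

On `ℓ²(Γ)`, `Γ` uncountable, let `φ(x) = (x_γ + |x_γ| / 2)_γ`.  The coordinate maps
`t ↦ t + |t| / 2` are Lipschitz homeomorphisms of the line with uniform constants, hence `φ` is a
Lipschitz homeomorphism of `ℓ²(Γ)` onto itself.  Every point `x` has a coordinate `γ` with
`x_γ = 0`, and there `φ` has no directional derivative in the direction of the unit vector `e_γ`.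
-/

set_option autoImplicit false

open Filter Topology
open scoped ENNReal NNReal

namespace Pool.Agent.Results.MP_714461_an.NowhereGateaux

universe u v

/-- The space `X` is reflexive: the canonical map into the bidual is onto. -/
def IsReflexive (X : Type*) [NormedAddCommGroup X] [NormedSpace ℝ X] : Prop :=
  Function.Surjective (NormedSpace.inclusionInDoubleDual ℝ X)

/-- `Z` is finitely representable in `X`: for every finite-dimensional subspace `F` of `Z` and every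
`ε > 0` there is a linear map `T : F → X` with `(1 - ε) ‖z‖ ≤ ‖T z‖ ≤ (1 + ε) ‖z‖` on `F`. -/
def FinitelyRepresentable (Z X : Type*) [NormedAddCommGroup Z] [NormedSpace ℝ Z]
    [NormedAddCommGroup X] [NormedSpace ℝ X] : Prop :=
  ∀ F : Submodule ℝ Z, FiniteDimensional ℝ F → ∀ ε : ℝ, 0 < ε →
    ∃ T : F →ₗ[ℝ] X, ∀ z : F, (1 - ε) * ‖z‖ ≤ ‖T z‖ ∧ ‖T z‖ ≤ (1 + ε) * ‖z‖

/-- `X` is superreflexive: every Banach space finitely representable in `X` is reflexive. -/
def IsSuperreflexive (X : Type u) [NormedAddCommGroup X] [NormedSpace ℝ X] : Prop :=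
  ∀ (Z : Type v) [NormedAddCommGroup Z] [NormedSpace ℝ Z] [CompleteSpace Z],
    FinitelyRepresentable Z X → IsReflexive Z

/-- `φ` is Gateaux differentiable at `x₀`. -/
def GateauxDifferentiableAt {X Y : Type*} [NormedAddCommGroup X] [NormedSpace ℝ X]
    [NormedAddCommGroup Y] [NormedSpace ℝ Y] (φ : X → Y) (x₀ : X) : Prop :=
  ∃ T : X →L[ℝ] Y, ∀ h : X,
    Tendsto (fun t : ℝ => t⁻¹ • (φ (x₀ + t • h) - φ x₀)) (𝓝[≠] 0) (𝓝 (T h))

/-- `φ` is a Lipschitz homeomorphism of `X` onto `Y`. -/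
def IsLipschitzHomeo {X Y : Type*} [NormedAddCommGroup X] [NormedAddCommGroup Y]
    (φ : X → Y) : Prop :=
  ∃ ψ : Y → X, Function.LeftInverse ψ φ ∧ Function.RightInverse ψ φ ∧
    (∃ K : ℝ≥0, LipschitzWith K φ) ∧ ∃ K : ℝ≥0, LipschitzWith K ψ

section Hilbert

lemma reflexive_of_inner (H : Type*) [NormedAddCommGroup H] [InnerProductSpace ℝ H]
    [CompleteSpace H] : IsReflexive H := by
  intro Φ
  let D := InnerProductSpace.toDual ℝ H
  let ψ : StrongDual ℝ H := LinearMap.mkContinuous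
    { toFun := fun x => Φ (D x)
      map_add' := fun x y => by rw [map_add, map_add]
      map_smul' := fun a x => by
        rw [LinearIsometryEquiv.map_smulₛₗ, map_smul]
        simp } ‖Φ‖
    (fun x => by
      have := Φ.le_opNorm (D x)
      rwa [LinearIsometryEquiv.norm_map] at this)
  refine ⟨D.symm ψ, ?_⟩
  ext f
  rw [NormedSpace.dual_def]
  have h1 : f (D.symm ψ) = inner ℝ (D.symm f) (D.symm ψ) := by
    have := InnerProductSpace.toDual_symm_apply (𝕜 := ℝ) (x := D.symm ψ) (y := f)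
    exact this.symm
  have h2 : Φ f = ψ (D.symm f) := by
    show Φ f = Φ (D (D.symm f))
    rw [LinearIsometryEquiv.apply_symm_apply]
  have h3 : ψ (D.symm f) = inner ℝ (D.symm ψ) (D.symm f) := by
    have := InnerProductSpace.toDual_symm_apply (𝕜 := ℝ) (x := D.symm f) (y := ψ)
    exact this.symm
  rw [h1, h2, h3, real_inner_comm]

lemma superreflexive_of_inner (H : Type u) [NormedAddCommGroup H] [InnerProductSpace ℝ H] :
    IsSuperreflexive.{u, v} H := by
  intro Z _ _ _ hZ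
  have hpar : ∀ x y : Z, ‖x + y‖ * ‖x + y‖ + ‖x - y‖ * ‖x - y‖ = 2 * (‖x‖ * ‖x‖ + ‖y‖ * ‖y‖) := by
    intro x y
    let F : Submodule ℝ Z := Submodule.span ℝ {x, y}
    have hF : FiniteDimensional ℝ F := FiniteDimensional.span_of_finite ℝ (Set.toFinite _)
    let x' : F := ⟨x, Submodule.subset_span (by simp)⟩
    let y' : F := ⟨y, Submodule.subset_span (by simp)⟩
    have hx : ‖x'‖ = ‖x‖ := rfl
    have hy : ‖y'‖ = ‖y‖ := rfl
    have hxy : ‖x' + y'‖ = ‖x + y‖ := rfl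
    have hxy' : ‖x' - y'‖ = ‖x - y‖ := rfl
    have key : ∀ ε : ℝ, 0 < ε → ε < 1 →
        (1 - ε) ^ 2 * (‖x + y‖ * ‖x + y‖ + ‖x - y‖ * ‖x - y‖) ≤
          (1 + ε) ^ 2 * (2 * (‖x‖ * ‖x‖ + ‖y‖ * ‖y‖)) ∧
        (1 - ε) ^ 2 * (2 * (‖x‖ * ‖x‖ + ‖y‖ * ‖y‖)) ≤
          (1 + ε) ^ 2 * (‖x + y‖ * ‖x + y‖ + ‖x - y‖ * ‖x - y‖) := by
      intro ε h0 h1
      obtain ⟨T, hT⟩ := hZ F hF ε h0
      have hp := parallelogram_law_with_norm ℝ (T x') (T y')
      rw [← map_add, ← map_sub] at hp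
      have hl : ∀ z : F, (1 - ε) ^ 2 * (‖z‖ * ‖z‖) ≤ ‖T z‖ * ‖T z‖ := fun z => by
        have := (hT z).1
        have h3 : 0 ≤ (1 - ε) * ‖z‖ := mul_nonneg (by linarith) (norm_nonneg _)
        nlinarith
      have hu : ∀ z : F, ‖T z‖ * ‖T z‖ ≤ (1 + ε) ^ 2 * (‖z‖ * ‖z‖) := fun z => by
        have := (hT z).2
        have h3 : 0 ≤ ‖T z‖ := norm_nonneg _
        nlinarith
      have a1 := hl x'; have a2 := hl y'; have a3 := hl (x' + y'); have a4 := hl (x' - y')
      have b1 := hu x'; have b2 := hu y'; have b3 := hu (x' + y'); have b4 := hu (x' - y')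
      rw [hx] at a1 b1
      rw [hy] at a2 b2
      rw [hxy] at a3 b3
      rw [hxy'] at a4 b4
      constructor <;> nlinarith
    have hc1 : Tendsto (fun ε : ℝ => (1 - ε) ^ 2 * (‖x + y‖ * ‖x + y‖ + ‖x - y‖ * ‖x - y‖))
        (𝓝[>] 0) (𝓝 (‖x + y‖ * ‖x + y‖ + ‖x - y‖ * ‖x - y‖)) := by
      have : Continuous (fun ε : ℝ =>
        (1 - ε) ^ 2 * (‖x + y‖ * ‖x + y‖ + ‖x - y‖ * ‖x - y‖)) := by fun_prop
      have h := (this.tendsto 0).mono_left (nhdsWithin_le_nhds (s := Set.Ioi 0))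
      simpa using h
    have hc2 : Tendsto (fun ε : ℝ => (1 + ε) ^ 2 * (2 * (‖x‖ * ‖x‖ + ‖y‖ * ‖y‖)))
        (𝓝[>] 0) (𝓝 (2 * (‖x‖ * ‖x‖ + ‖y‖ * ‖y‖))) := by
      have : Continuous (fun ε : ℝ => (1 + ε) ^ 2 * (2 * (‖x‖ * ‖x‖ + ‖y‖ * ‖y‖))) := by fun_prop
      have h := (this.tendsto 0).mono_left (nhdsWithin_le_nhds (s := Set.Ioi 0))
      simpa using h
    have hc3 : Tendsto (fun ε : ℝ => (1 + ε) ^ 2 * (‖x + y‖ * ‖x + y‖ + ‖x - y‖ * ‖x - y‖))
        (𝓝[>] 0) (𝓝 (‖x + y‖ * ‖x + y‖ + ‖x - y‖ * ‖x - y‖)) := by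
      have : Continuous (fun ε : ℝ =>
        (1 + ε) ^ 2 * (‖x + y‖ * ‖x + y‖ + ‖x - y‖ * ‖x - y‖)) := by fun_prop
      have h := (this.tendsto 0).mono_left (nhdsWithin_le_nhds (s := Set.Ioi 0))
      simpa using h
    have hc4 : Tendsto (fun ε : ℝ => (1 - ε) ^ 2 * (2 * (‖x‖ * ‖x‖ + ‖y‖ * ‖y‖)))
        (𝓝[>] 0) (𝓝 (2 * (‖x‖ * ‖x‖ + ‖y‖ * ‖y‖))) := by
      have : Continuous (fun ε : ℝ => (1 - ε) ^ 2 * (2 * (‖x‖ * ‖x‖ + ‖y‖ * ‖y‖))) := by fun_prop
      have h := (this.tendsto 0).mono_left (nhdsWithin_le_nhds (s := Set.Ioi 0))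
      simpa using h
    have hev : ∀ᶠ ε : ℝ in 𝓝[>] 0, 0 < ε ∧ ε < 1 := by
      filter_upwards [Ioo_mem_nhdsGT (show (0 : ℝ) < 1 by norm_num)] with ε hε
      exact hε
    apply le_antisymm
    · exact le_of_tendsto_of_tendsto hc1 hc2 (hev.mono fun ε hε => (key ε hε.1 hε.2).1)
    · exact le_of_tendsto_of_tendsto hc4 hc3 (hev.mono fun ε hε => (key ε hε.1 hε.2).2)
  let _ : InnerProductSpace ℝ Z := InnerProductSpace.ofNorm ℝ hpar
  exact reflexive_of_inner Z

end Hilbert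

/-- the coordinate map -/
noncomputable def c (t : ℝ) : ℝ := t + |t| / 2

/-- the inverse of the coordinate map -/
noncomputable def d (t : ℝ) : ℝ := max (2 * t / 3) 0 + min (2 * t) 0

lemma c_zero : c 0 = 0 := by simp [c]

lemma d_zero : d 0 = 0 := by simp [d]

lemma dc (t : ℝ) : d (c t) = t := by
  unfold c d
  rcases le_total 0 t with h | h
  · rw [abs_of_nonneg h, max_eq_left (by linarith), min_eq_right (by linarith)]
    ring
  · rw [abs_of_nonpos h, max_eq_right (by linarith), min_eq_left (by linarith)]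
    ring

lemma cd (t : ℝ) : c (d t) = t := by
  unfold c d
  rcases le_total 0 t with h | h
  · rw [max_eq_left (by linarith), min_eq_right (by linarith), add_zero,
      abs_of_nonneg (by linarith)]
    ring
  · rw [max_eq_right (by linarith), min_eq_left (by linarith), zero_add,
      abs_of_nonpos (by linarith)]
    ring

lemma c_lip (s t : ℝ) : |c s - c t| ≤ 2 * |s - t| := by
  unfold c
  have h1 : |(|s| - |t|)| ≤ |s - t| := abs_abs_sub_abs_le s t
  have h2 : s + |s| / 2 - (t + |t| / 2) = (s - t) + (|s| - |t|) / 2 := by ring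
  rw [h2]
  refine (abs_add_le _ _).trans ?_
  rw [abs_div, abs_two]
  have := abs_nonneg (s - t)
  linarith

lemma d_lip (s t : ℝ) : |d s - d t| ≤ 4 * |s - t| := by
  unfold d
  have h1 : |max (2 * s / 3) 0 - max (2 * t / 3) 0| ≤ |2 * s / 3 - 2 * t / 3| := by
    refine (abs_max_sub_max_le_max _ _ _ _).trans ?_
    simp
  have h2 : |min (2 * s) 0 - min (2 * t) 0| ≤ |2 * s - 2 * t| := by
    refine (abs_min_sub_min_le_max _ _ _ _).trans ?_
    simp
  have h3 : |2 * s / 3 - 2 * t / 3| = 2 / 3 * |s - t| := by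
    rw [show 2 * s / 3 - 2 * t / 3 = 2 / 3 * (s - t) by ring, abs_mul,
      abs_of_pos (show (0 : ℝ) < 2 / 3 by norm_num)]
  have h4 : |2 * s - 2 * t| = 2 * |s - t| := by
    rw [show 2 * s - 2 * t = 2 * (s - t) by ring, abs_mul, abs_two]
  have h5 : max (2 * s / 3) 0 + min (2 * s) 0 - (max (2 * t / 3) 0 + min (2 * t) 0) =
    (max (2 * s / 3) 0 - max (2 * t / 3) 0) + (min (2 * s) 0 - min (2 * t) 0) := by ring
  rw [h5]
  refine (abs_add_le _ _).trans ?_
  have := abs_nonneg (s - t)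
  linarith

/-- the space `ℓ²(Γ)` -/
abbrev EllTwo (Γ : Type u) : Type u := lp (fun _ : Γ => ℝ) 2

variable {Γ : Type u}

/-- the map of `ℓ²(Γ)` that is given by a Lipschitz map on each coordinate -/
noncomputable def coordMap (a : ℝ → ℝ) (ha0 : a 0 = 0) (K : ℝ) (ha : ∀ s t, |a s - a t| ≤ K * |s - t|)
    (x : EllTwo Γ) : EllTwo Γ :=
  ⟨fun γ => a (x γ), by
    have hx : Memℓp (fun γ => K * x γ) 2 := (lp.memℓp x).const_mul K
    refine Memℓp.mono' hx fun γ => ?_
    have := ha (x γ) 0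
    rw [ha0, sub_zero, sub_zero] at this
    have hK : |a (x γ)| ≤ |K * x γ| := by
      rw [abs_mul]
      exact this.trans (mul_le_mul_of_nonneg_right (le_abs_self K) (abs_nonneg _))
    simpa using hK⟩

lemma coordMap_apply (a : ℝ → ℝ) (ha0 : a 0 = 0) (K : ℝ) (ha : ∀ s t, |a s - a t| ≤ K * |s - t|)
    (x : EllTwo Γ) (γ : Γ) : coordMap a ha0 K ha x γ = a (x γ) := rfl

lemma coordMap_lip (a : ℝ → ℝ) (ha0 : a 0 = 0) (K : ℝ≥0)
    (ha : ∀ s t, |a s - a t| ≤ K * |s - t|) :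
    LipschitzWith K (coordMap (Γ := Γ) a ha0 K ha) := by
  apply LipschitzWith.of_dist_le_mul
  intro x y
  rw [dist_eq_norm, dist_eq_norm]
  have h : ‖coordMap a ha0 K ha x - coordMap a ha0 K ha y‖ ≤ ‖(K : ℝ) • (x - y)‖ := by
    refine lp.norm_mono (by norm_num) fun γ => ?_
    rw [lp.coeFn_sub, lp.coeFn_smul, lp.coeFn_sub]
    simp only [Pi.sub_apply, Pi.smul_apply, smul_eq_mul, coordMap_apply, norm_mul,
      Real.norm_eq_abs, NNReal.abs_eq]
    exact ha _ _
  rw [norm_smul] at h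
  simpa using h

/-- the Lipschitz homeomorphism `x ↦ (x_γ + |x_γ| / 2)_γ` -/
noncomputable def phi (x : EllTwo Γ) : EllTwo Γ := coordMap c c_zero ((2 : ℝ≥0) : ℝ) c_lip x

/-- its inverse -/
noncomputable def psi (x : EllTwo Γ) : EllTwo Γ := coordMap d d_zero ((4 : ℝ≥0) : ℝ) d_lip x

lemma lipschitzHomeo_phi : IsLipschitzHomeo (phi (Γ := Γ)) := by
  refine ⟨psi, fun x => ?_, fun x => ?_, ⟨2, coordMap_lip c c_zero 2 c_lip⟩,
    ⟨4, coordMap_lip d d_zero 4 d_lip⟩⟩
  · apply lp.ext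
    funext γ
    exact dc (x γ)
  · apply lp.ext
    funext γ
    exact cd (x γ)

lemma exists_coord_zero [Uncountable Γ] (x : EllTwo Γ) : ∃ γ, x γ = 0 := by
  by_contra h
  push Not at h
  have hs : Summable fun γ => ‖x γ‖ ^ (2 : ℝ) := by
    have := (lp.memℓp x).summable (by norm_num)
    simpa using this
  have hc := hs.countable_support
  have : Function.support (fun γ => ‖x γ‖ ^ (2 : ℝ)) = Set.univ := by
    apply Set.eq_univ_of_forall
    intro γ
    rw [Function.mem_support]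
    have := norm_pos_iff.mpr (h γ)
    positivity
  rw [this, Set.countable_univ_iff] at hc
  exact not_countable hc

lemma not_gateaux [Uncountable Γ] (x : EllTwo Γ) : ¬ GateauxDifferentiableAt phi x := by
  classical
  rintro ⟨T, hT⟩
  obtain ⟨γ, hγ⟩ := exists_coord_zero x
  have h1 := hT (lp.single 2 γ 1)
  have h2 : Tendsto (fun t : ℝ => (t⁻¹ • (phi (x + t • lp.single 2 γ 1) - phi x) : EllTwo Γ) γ)
      (𝓝[≠] 0) (𝓝 ((T (lp.single 2 γ 1)) γ)) :=
    (((lp.evalCLM ℝ (fun _ : Γ => ℝ) 2 γ).continuous.tendsto _).comp h1)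
  have h3 : ∀ t : ℝ, (t⁻¹ • (phi (x + t • lp.single 2 γ 1) - phi x) : EllTwo Γ) γ =
      t⁻¹ * c t := by
    intro t
    have e1 : (x + t • lp.single 2 γ 1 : EllTwo Γ) γ = t := by
      rw [lp.coeFn_add, lp.coeFn_smul, Pi.add_apply, Pi.smul_apply, lp.single_apply_self, hγ]
      simp
    rw [lp.coeFn_smul, lp.coeFn_sub, Pi.smul_apply, Pi.sub_apply]
    show t⁻¹ * (c ((x + t • lp.single 2 γ 1 : EllTwo Γ) γ) - c (x γ)) = _
    rw [e1, hγ, c_zero, sub_zero]
  simp_rw [h3] at h2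
  have hp : Tendsto (fun t : ℝ => t⁻¹ * c t) (𝓝[>] 0) (𝓝 (3 / 2)) := by
    refine (tendsto_const_nhds (x := (3 / 2 : ℝ))).congr' ?_
    filter_upwards [self_mem_nhdsWithin] with t ht
    have ht' : (0 : ℝ) < t := ht
    unfold c
    rw [abs_of_pos ht']
    field_simp
    ring
  have hm : Tendsto (fun t : ℝ => t⁻¹ * c t) (𝓝[<] 0) (𝓝 (1 / 2)) := by
    refine (tendsto_const_nhds (x := (1 / 2 : ℝ))).congr' ?_
    filter_upwards [self_mem_nhdsWithin] with t ht
    have ht' : t < (0 : ℝ) := ht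
    have ht0 : t ≠ 0 := ht'.ne
    unfold c
    rw [abs_of_neg ht']
    field_simp
    ring
  have s1 : Set.Ioi (0 : ℝ) ⊆ {0}ᶜ := fun t ht => (ne_of_gt ht : t ≠ 0)
  have s2 : Set.Iio (0 : ℝ) ⊆ {0}ᶜ := fun t ht => (ne_of_lt ht : t ≠ 0)
  have e1 := tendsto_nhds_unique (h2.mono_left (nhdsWithin_mono 0 s1)) hp
  have e2 := tendsto_nhds_unique (h2.mono_left (nhdsWithin_mono 0 s2)) hm
  rw [e1] at e2
  norm_num at e2

lemma not_separable [Uncountable Γ] : ¬ TopologicalSpace.SeparableSpace (EllTwo Γ) := by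
  classical
  intro hsep
  have hdist : ∀ i j : Γ, i ≠ j → 1 ≤ dist (lp.single 2 i 1 : EllTwo Γ) (lp.single 2 j 1) := by
    intro i j hij
    rw [dist_eq_norm]
    have h := lp.norm_apply_le_norm (by norm_num)
      ((lp.single 2 i 1 : EllTwo Γ) - lp.single 2 j 1) i
    rw [lp.coeFn_sub, Pi.sub_apply, lp.single_apply_self, lp.single_apply_ne _ _ _ hij] at h
    simpa using h
  have hc := Pairwise.countable_of_isOpen_disjoint
    (s := fun i : Γ => Metric.ball (lp.single 2 i 1 : EllTwo Γ) (1 / 2)) ?_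
    (fun i => Metric.isOpen_ball) (fun i => ⟨_, Metric.mem_ball_self (by norm_num)⟩)
  · exact not_countable hc
  · intro i j hij
    apply Metric.ball_disjoint_ball
    have := hdist i j hij
    linarith

/-- For every uncountable set `Γ` the space `ℓ²(Γ)` is a nonseparable, reflexive and superreflexive
Banach space, and there is a Lipschitz homeomorphism `φ` of `ℓ²(Γ)` onto itself that is Gateaux
differentiable at no point. -/
theorem result (Γ : Type u) [Uncountable Γ] :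
    CompleteSpace (EllTwo Γ) ∧ ¬ TopologicalSpace.SeparableSpace (EllTwo Γ) ∧
      IsReflexive (EllTwo Γ) ∧ IsSuperreflexive.{u, v} (EllTwo Γ) ∧
      ∃ φ : EllTwo Γ → EllTwo Γ, IsLipschitzHomeo φ ∧ ∀ x₀, ¬ GateauxDifferentiableAt φ x₀ :=
  ⟨inferInstance, not_separable, reflexive_of_inner _, superreflexive_of_inner _,
    phi, lipschitzHomeo_phi, not_gateaux⟩

end Pool.Agent.Results.MP_714461_an.NowhereGateaux
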